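import Mathlib
import Pool.Agent.T2H56.CT.DenseC

set_option autoImplicit false

/-!
# Dense clusters of odd squarefree congruent numbers

For an odd squarefree `b` and a modulus `M` there is `c > 0` such that for all large `X` and all
`0 ≤ H ≤ X ^ (3/4)` there are at least `c X ^ (1/4)` disjoint intervals of length `H` in `[0, X]`
each of which contains at least `c H ^ (1/4)` (and at least one) odd squarefree congruent numbers
congruent to `b` modulo `M`.

The numbers are `b (t ^ 4 - b ^ 2 k ^ 4) = b (t ^ 2 - b k ^ 2) (t ^ 2 + b k ^ 2)` for a fixed `t` and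
all multiples `k` of a fixed integer with `b ^ 3 k ^ 4 ≤ H`.  On average over `t` a positive
proportion of these `k` gives squarefree values, uniformly in `H`: the pairs `(t, k)` with a common
prime factor and, for every `k`, the at most four classes of `t` modulo the square of a prime, are
removed for all primes `> 200`; for the largest primes one uses `π (x) = o (x)`.
-/

namespace Pool.Agent.Results.MP_05dcdc_nt.DenseClusters

/-- `n` is the area of a right triangle with rational sides -/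
def IsCongruent (n : ℕ) : Prop :=
  ∃ a b c : ℚ, 0 < a ∧ 0 < b ∧ 0 < c ∧ a ^ 2 + b ^ 2 = c ^ 2 ∧ (n : ℚ) = a * b / 2

/-- the odd squarefree congruent numbers `n ≡ b` modulo `M` in the interval `[N, N + H]` -/
def Cluster (b M N : ℕ) (H : ℝ) : Set ℕ :=
  {n : ℕ | N ≤ n ∧ (n : ℝ) ≤ N + H ∧ n ≡ b [MOD M] ∧ Odd n ∧ Squarefree n ∧ IsCongruent n}

/-- **Dense clusters of odd squarefree congruent numbers.**  Let `b` be odd and squarefree and
`M ≥ 1`.  There are `c > 0` and `X₀` such that for all `X ≥ X₀` and all `0 ≤ H ≤ X ^ (3/4)` there is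
a set of at least `c X ^ (1/4)` integers `N` for which the intervals `[N, N + H]` are contained in
`[0, X]`, pairwise disjoint, and contain each at least `max (1, c H ^ (1/4))` odd squarefree
congruent numbers congruent to `b` modulo `M`. -/
theorem result (b M : ℕ) (hb : Odd b) (hbs : Squarefree b) (hM : 0 < M) :
    ∃ c : ℝ, 0 < c ∧ ∃ X₀ : ℝ, ∀ X : ℝ, X₀ ≤ X → ∀ H : ℝ, 0 ≤ H → H ≤ X ^ (3 / 4 : ℝ) →
      ∃ 𝒩 : Finset ℕ, c * X ^ (1 / 4 : ℝ) ≤ (𝒩.card : ℝ) ∧ (∀ N ∈ 𝒩, (N : ℝ) + H ≤ X) ∧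
        (∀ N ∈ 𝒩, ∀ N' ∈ 𝒩, N < N' → (N : ℝ) + H < N') ∧
        ∀ N ∈ 𝒩, max 1 (c * H ^ (1 / 4 : ℝ)) ≤ ((Cluster b M N H).ncard : ℝ) := by
  obtain ⟨c, hc, X₀, h⟩ := Pool.Agent.T2H56.CT.dense b (2 * M) hb.pos hbs (by omega)
  refine ⟨c, hc, X₀, fun X hX H hH0 hHX => ?_⟩
  obtain ⟨𝒩, h1, h2, h3, h4⟩ := h X hX H hH0 hHX
  refine ⟨𝒩, h1, h2, h3, fun N hN => (h4 N hN).trans ?_⟩
  have hfin : (Cluster b M N H).Finite := by
    apply (Set.finite_Iic ⌊(N : ℝ) + H⌋₊).subset
    intro n hn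
    exact Nat.le_floor hn.2.1
  have hsub : Pool.Agent.T2H56.CT.Clu b (2 * M) N H ⊆ Cluster b M N H := by
    rintro n ⟨g1, g2, g3, g4, g5⟩
    refine ⟨g1, g2, g3.of_dvd (Dvd.intro_left 2 rfl), ?_, g4, g5⟩
    have g6 : n ≡ b [MOD 2] := g3.of_dvd (Dvd.intro M rfl)
    rw [Nat.odd_iff] at hb ⊢
    have g7 : n % 2 = b % 2 := g6
    omega
  exact_mod_cast Set.ncard_le_ncard hsub hfin

end Pool.Agent.Results.MP_05dcdc_nt.DenseClusters
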