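import Mathlib
import Pool.Agent.T2H56.CT.SevD

set_option autoImplicit false

/-!
# Pairs of squarefree congruent numbers with difference 7

For each `r = 2, 3, 6, 7` at least `X ^ (1/3) / (log X) ^ R` integers `n ≤ X`, `n ≡ r` modulo `8`,
are such that `n` and `n + 7` are both squarefree congruent numbers with at most `R` prime factors,
the odd ones larger than `X ^ (1/R)`.  So every odd class modulo `8` contains infinitely many
squarefree congruent numbers with another squarefree congruent number at distance `7`: above them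
in the classes `3` and `7` (the neighbours lie in the classes `2` and `6`), below them in the classes
`1` and `5` (the neighbours lie in the classes `2` and `6`).

The numbers are `n = (2 V + 1) (V ^ 2 - 2 V - 1)` and `n + 7 = (2 V - 3) (V ^ 2 - 2)`.  The triangles
are those with the parameters `(V ^ 2, 2 V + 1)` and `((V - 1) ^ 2, 2 V - 3)`, for which
`V ^ 2 + (2 V + 1) = (V + 1) ^ 2` and `(V - 1) ^ 2 - (2 V - 3) = (V - 2) ^ 2`.
-/

namespace Pool.Agent.Results.MP_05dcdc_nt.PairsSevenApart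

/-- `n` is the area of a right triangle with rational sides -/
def IsCongruent (n : ℕ) : Prop :=
  ∃ a b c : ℚ, 0 < a ∧ 0 < b ∧ 0 < c ∧ a ^ 2 + b ^ 2 = c ^ 2 ∧ (n : ℚ) = a * b / 2

/-- `n` has at most `R` prime factors, the odd ones larger than `X ^ (1/R)` -/
def AlmostPrime (R X n : ℕ) : Prop :=
  n.primeFactors.card ≤ R ∧ ∀ p : ℕ, p.Prime → p ≠ 2 → p ∣ n → X < p ^ R

/-- **Pairs of squarefree congruent numbers with difference `7`.**  There is `R` such that for
`r = 2, 3, 6, 7` and all large `X` at least `X ^ (1/3) / (log X) ^ R` integers `n ≤ X` with `n ≡ r`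
modulo `8` have the property that `n` and `n + 7` are squarefree congruent numbers with at most `R`
prime factors, the odd ones larger than `X ^ (1/R)`. -/
theorem result : ∃ R : ℕ, 1 ≤ R ∧ ∀ r : ℕ, (r = 2 ∨ r = 3 ∨ r = 6 ∨ r = 7) →
    ∃ X₀ : ℕ, ∀ X : ℕ, X₀ ≤ X → (X : ℝ) ^ (1 / 3 : ℝ) / Real.log X ^ R ≤
      (({n : ℕ | n ≤ X ∧ n % 8 = r ∧ Squarefree n ∧ Squarefree (n + 7) ∧ IsCongruent n ∧
        IsCongruent (n + 7) ∧ AlmostPrime R X n ∧ AlmostPrime R X (n + 7)}.ncard : ℕ) : ℝ) := by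
  obtain ⟨R, hR, h⟩ := Pool.Agent.T2H56.CT.seven
  refine ⟨R, hR, fun r hr => ?_⟩
  obtain ⟨X₀, hX₀⟩ := Filter.eventually_atTop.1 (h r hr)
  refine ⟨X₀, fun X hX => (hX₀ X hX).trans ?_⟩
  have hfin : {n : ℕ | n ≤ X ∧ n % 8 = r ∧ Squarefree n ∧ Squarefree (n + 7) ∧ IsCongruent n ∧
        IsCongruent (n + 7) ∧ AlmostPrime R X n ∧ AlmostPrime R X (n + 7)}.Finite :=
    (Set.finite_Iic X).subset fun n hn => hn.1
  have hsub : {n : ℕ | Pool.Agent.T2H56.CT.PairAt r R X n} ⊆ {n : ℕ | n ≤ X ∧ n % 8 = r ∧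
      Squarefree n ∧ Squarefree (n + 7) ∧ IsCongruent n ∧
        IsCongruent (n + 7) ∧ AlmostPrime R X n ∧ AlmostPrime R X (n + 7)} := by
    rintro n ⟨h1, h2, h3, h4, h5, h6, h7, h8, h9⟩
    exact ⟨h1, h2, h3, h4, h5, h6, ⟨h7, fun p hp hp2 hd => h9 p hp hp2 (Or.inl hd)⟩,
      ⟨h8, fun p hp hp2 hd => h9 p hp hp2 (Or.inr hd)⟩⟩
  exact_mod_cast Set.ncard_le_ncard hsub hfin

end Pool.Agent.Results.MP_05dcdc_nt.PairsSevenApart
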