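import Mathlib
import Pool.Agent.T2H56.CT.QrC

set_option autoImplicit false

/-!
# Squarefree congruent numbers all of whose prime factors are congruent to 1 modulo 8

For every `ε > 0` and every modulus `M` at least `X ^ (1/2 - ε)` integers `n ≤ X`, `n ≡ 1` modulo `M`,
are squarefree congruent numbers all of whose prime factors are `≡ 1` modulo `8`.

The numbers are the values of the irreducible quartic form
`x ^ 4 + 6 x ^ 2 y ^ 2 + y ^ 4 = (x ^ 2 + y ^ 2) ^ 2 + (2 x y) ^ 2 = (x ^ 2 + 3 y ^ 2) ^ 2 - 8 y ^ 4` at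
coprime `x`, `y`.  A positive proportion of the values at `x ≡ 1`, `y ≡ 0` modulo `Q` is squarefree:
for primes `p > 4 Q S` two coprime pairs with the same ratio modulo `p ^ 2` are equal.
-/

namespace Pool.Agent.Results.MP_05dcdc_nt.PrimeFactorsOneModEight

/-- `n` is the area of a right triangle with rational sides -/
def IsCongruent (n : ℕ) : Prop :=
  ∃ a b c : ℚ, 0 < a ∧ 0 < b ∧ 0 < c ∧ a ^ 2 + b ^ 2 = c ^ 2 ∧ (n : ℚ) = a * b / 2

/-- **Squarefree congruent numbers all of whose prime factors are `≡ 1` modulo `8`.**  For every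
`ε > 0` and every `M ≥ 1` there is `X₀` such that for all `X ≥ X₀` at least `X ^ (1/2 - ε)` integers
`n ≤ X` with `n ≡ 1` modulo `8` and modulo `M` are squarefree congruent numbers all of whose prime
factors are congruent to `1` modulo `8`. -/
theorem result (ε : ℝ) (hε : 0 < ε) (M : ℕ) (hM : 0 < M) : ∃ X₀ : ℕ, ∀ X : ℕ, X₀ ≤ X →
    (X : ℝ) ^ (1 / 2 - ε) ≤ (({n : ℕ | n ≤ X ∧ n % 8 = 1 ∧ n ≡ 1 [MOD M] ∧ Squarefree n ∧
      IsCongruent n ∧ ∀ p : ℕ, p.Prime → p ∣ n → p % 8 = 1}.ncard : ℕ) : ℝ) := by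
  obtain ⟨X₀, hX₀⟩ := Filter.eventually_atTop.1
    (Pool.Agent.T2H56.CT.quartic (8 * M) (by omega) ε hε)
  refine ⟨X₀, fun X hX => (hX₀ X hX).trans ?_⟩
  have hfin : {n : ℕ | n ≤ X ∧ n % 8 = 1 ∧ n ≡ 1 [MOD M] ∧ Squarefree n ∧
      IsCongruent n ∧ ∀ p : ℕ, p.Prime → p ∣ n → p % 8 = 1}.Finite :=
    (Set.finite_Iic X).subset fun n hn => hn.1
  have hsub : {n : ℕ | Pool.Agent.T2H56.CT.Good8 (8 * M) X n} ⊆ {n : ℕ | n ≤ X ∧ n % 8 = 1 ∧
      n ≡ 1 [MOD M] ∧ Squarefree n ∧ IsCongruent n ∧ ∀ p : ℕ, p.Prime → p ∣ n → p % 8 = 1} := by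
    rintro n ⟨h1, h2, h3, h4, h5⟩
    have h6 : n ≡ 1 [MOD 8] := h2.of_dvd (Dvd.intro M rfl)
    exact ⟨h1, h6, h2.of_dvd (Dvd.intro_left 8 rfl), h3, h4, h5⟩
  exact_mod_cast Set.ncard_le_ncard hsub hfin

end Pool.Agent.Results.MP_05dcdc_nt.PrimeFactorsOneModEight
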