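import Mathlib
import Pool.Agent.T2H56.CT.TupM

set_option autoImplicit false

/-!
# Tuples of odd squarefree congruent numbers at bounded distances, in residue classes

For every `K` and every odd squarefree `b ≥ 3` and every modulus `M` there are fixed shifts
`h₁ < ... < h_K` such that for at least `X ^ (1/4) / (log X) ^ R` integers `n ≤ X` all the numbers
`n + h₁, ..., n + h_K` are squarefree congruent numbers, congruent to `b` modulo `M` and divisible
by `b`, with quotients by `b` free of prime factors `≤ X ^ (1/R)`, and with `O (K log K)` prime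
factors altogether, with an absolute constant.

The numbers are `b (t ^ 4 - b ^ 2 k ^ 4) = b (t ^ 2 - b k ^ 2) (t ^ 2 + b k ^ 2)` with a fixed set
of `k`; their differences do not depend on `t`.  The values of the `2 K` quadratic polynomials are
sieved simultaneously (`Pool.Agent.Y887.QE.quad_sieve` of the starting development).
-/

namespace Pool.Agent.Results.MP_05dcdc_nt.TuplesInResidueClasses

/-- `n` is the area of a right triangle with rational sides -/
def IsCongruent (n : ℕ) : Prop :=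
  ∃ a b c : ℚ, 0 < a ∧ 0 < b ∧ 0 < c ∧ a ^ 2 + b ^ 2 = c ^ 2 ∧ (n : ℚ) = a * b / 2

/-- **Tuples of odd squarefree congruent numbers at bounded distances, in residue classes.**
There is a constant `C`, for every `K ≥ 1` there is `R`, and for all odd squarefree `b ≥ 3` and all
`M ≥ 1` there are fixed shifts `h 0 < h 1 < ... < h (K - 1)` such that for all large `X` at least
`X ^ (1/4) / (log X) ^ R` integers `n ≤ X` have the following property: all `n + h i` are odd
squarefree congruent numbers, congruent to `b` modulo `M` and divisible by `b`, all prime factors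
of the quotients `(n + h i) / b` are larger than `X ^ (1/R)`, and these `K` quotients have together
at most `C K (log₂ K + 1)` prime factors. -/
theorem result : ∃ C : ℕ, 1 ≤ C ∧ ∀ K : ℕ, 1 ≤ K → ∃ R : ℕ, 1 ≤ R ∧
    ∀ b M : ℕ, 3 ≤ b → Odd b → Squarefree b → 0 < M → ∃ h : Fin K → ℕ, StrictMono h ∧
      ∃ X₀ : ℕ, ∀ X : ℕ, X₀ ≤ X → (X : ℝ) ^ (1 / 4 : ℝ) / Real.log X ^ R ≤
        (({n : ℕ | n ≤ X ∧
          (∀ i, Odd (n + h i) ∧ Squarefree (n + h i) ∧ IsCongruent (n + h i) ∧
            n + h i ≡ b [MOD M] ∧ b ∣ n + h i ∧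
            ∀ p : ℕ, p.Prime → p ∣ (n + h i) / b → X < p ^ R) ∧
          ∑ i, ((n + h i) / b).primeFactors.card ≤ C * K * (Nat.log 2 K + 1)}.ncard : ℕ) : ℝ) := by
  obtain ⟨C, hC, hmain⟩ := Pool.Agent.T2H56.CT.tuples
  refine ⟨C, hC, fun K hK => ?_⟩
  obtain ⟨R, hR, hmain⟩ := hmain K hK
  refine ⟨R, hR, fun b M hb hbo hbs hM => ?_⟩
  obtain ⟨h, hh, hmain⟩ := hmain b (2 * M) (by omega) hbs (by omega)
  obtain ⟨X₀, hX₀⟩ := Filter.eventually_atTop.1 hmain
  refine ⟨h, hh, X₀, fun X hX => (hX₀ X hX).trans ?_⟩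
  have hfin : {n : ℕ | n ≤ X ∧
          (∀ i, Odd (n + h i) ∧ Squarefree (n + h i) ∧ IsCongruent (n + h i) ∧
            n + h i ≡ b [MOD M] ∧ b ∣ n + h i ∧
            ∀ p : ℕ, p.Prime → p ∣ (n + h i) / b → X < p ^ R) ∧
          ∑ i, ((n + h i) / b).primeFactors.card ≤ C * K * (Nat.log 2 K + 1)}.Finite :=
    (Set.finite_Iic X).subset fun n hn => hn.1
  have hsub : {n : ℕ | Pool.Agent.T2H56.CT.TupleAt K b (2 * M) R C X h n} ⊆ {n : ℕ | n ≤ X ∧
          (∀ i, Odd (n + h i) ∧ Squarefree (n + h i) ∧ IsCongruent (n + h i) ∧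
            n + h i ≡ b [MOD M] ∧ b ∣ n + h i ∧
            ∀ p : ℕ, p.Prime → p ∣ (n + h i) / b → X < p ^ R) ∧
          ∑ i, ((n + h i) / b).primeFactors.card ≤ C * K * (Nat.log 2 K + 1)} := by
    rintro n ⟨h1, h2, h3⟩
    refine ⟨h1, fun i => ?_, h3⟩
    obtain ⟨g1, g2, g3, g4, g5⟩ := h2 i
    refine ⟨?_, g2, g3, g1.of_dvd (Dvd.intro_left 2 rfl), g4, g5⟩
    have h4 : n + h i ≡ b [MOD 2] := g1.of_dvd (Dvd.intro M rfl)
    rw [Nat.odd_iff] at hbo ⊢
    have h5 : (n + h i) % 2 = b % 2 := h4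
    omega
  exact_mod_cast Set.ncard_le_ncard hsub hfin

end Pool.Agent.Results.MP_05dcdc_nt.TuplesInResidueClasses
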